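import Pool.Agent.Lib.MP_b9b22b_co.Lin.Base

/-!
# RATIO: one ratio and all large `n`, from the blocks
-/

set_option autoImplicit false

namespace Pool.Agent.Lib.MP_b9b22b_co.Lin.H72

open Finset Pool.Agent.Lib.MP_b9b22b_co.Lin

lemma pick {T A M : ℕ} (hT : 0 < T) (h : T * 2 ^ A ≤ M) :
    ∃ a t : ℕ, A ≤ a ∧ T ≤ t ∧ t < 2 * T ∧ 2 ^ a * t ≤ M ∧ M < 2 ^ a * (t + 1) := by
  have h1 : 2 ^ A ≤ M / T := by rw [Nat.le_div_iff_mul_le hT, mul_comm]; exact h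
  have h0 : M / T ≠ 0 := (lt_of_lt_of_le (by positivity) h1).ne'
  refine ⟨Nat.log 2 (M / T), M / 2 ^ Nat.log 2 (M / T), ?_, ?_, ?_, ?_, ?_⟩
  · exact (Nat.le_log_iff_pow_le (by norm_num) h0).mpr h1
  · have h2 := Nat.pow_log_le_self 2 h0
    rw [Nat.le_div_iff_mul_le (by positivity)]
    rw [Nat.le_div_iff_mul_le hT, mul_comm] at h2
    exact h2
  · have h2 := Nat.lt_pow_succ_log_self (b := 2) (by norm_num) (M / T)
    rw [Nat.div_lt_iff_lt_mul hT, pow_succ] at h2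
    rw [Nat.div_lt_iff_lt_mul (by positivity)]
    linarith
  · exact Nat.mul_div_le _ _
  · exact Nat.lt_mul_div_succ _ (by positivity)

lemma num1 {δ : ℝ} (hδ : 0 < δ) (hδ1 : δ ≤ 1 / 2) : 1 - δ ≤ (1 - δ / 8) ^ 4 := by
  have a1 : (1 - δ / 4) ≤ (1 - δ / 8) ^ 2 := by nlinarith [sq_nonneg δ]
  have a2 : (1 - δ / 4) ^ 2 ≤ ((1 - δ / 8) ^ 2) ^ 2 := pow_le_pow_left₀ (by linarith) a1 2
  have a3 : ((1 - δ / 8) ^ 2) ^ 2 = (1 - δ / 8) ^ 4 := by ring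
  have a4 : (1 - δ / 4) ^ 2 = 1 - δ / 2 + δ ^ 2 / 16 := by ring
  have a5 : 0 ≤ δ ^ 2 := sq_nonneg δ
  linarith

lemma num2 {δ : ℝ} : (1 - δ / 8) * (1 + δ / 8) ≤ 1 := by nlinarith [sq_nonneg δ]

lemma ratio_small (hBl : BlockStatement) (hM : MonoStatement) (p q : ℕ) (hp : 0 < p) (hpq : p < q)
    {δ : ℝ} (hδ : 0 < δ) (hδ1 : δ ≤ 1 / 2) : ∃ n₀ : ℕ, ∀ n i : ℕ, n₀ ≤ n →
    (i : ℝ) ≤ (1 - δ) * (p / q) * n → Big n i ((1 - δ) * √(n * (((q : ℝ) - p) / p)) / 2) := by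
  classical
  have hpr : (0 : ℝ) < p := by exact_mod_cast hp
  have hqp : (0 : ℝ) < (q : ℝ) - p := by
    have : (p : ℝ) < q := by exact_mod_cast hpq
    linarith
  have hqr : (0 : ℝ) < q := by linarith
  obtain ⟨T, hT⟩ := exists_nat_ge (8 / δ)
  have hTδ : 8 ≤ δ * T := by
    rw [div_le_iff₀ hδ] at hT; linarith
  have hTr : (0 : ℝ) < T := lt_of_lt_of_le (by positivity) hT
  have hT0 : 0 < T := by exact_mod_cast hTr
  have hε : 0 < δ / 8 := by positivity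
  have hall : ∀ t : ℕ, ∃ a₀ : ℕ, 0 < t → ∀ a : ℕ, a₀ ≤ a → ∃ n i : ℕ,
      (n : ℝ) ≤ (1 + δ / 8) * 4 ^ a * (((t * p : ℕ) : ℝ) * (((t * q : ℕ) : ℝ) - ((t * p : ℕ) : ℝ))) ∧
      (1 - δ / 8) * 4 ^ a * (((t * p : ℕ) : ℝ) * (((t * q : ℕ) : ℝ) - ((t * p : ℕ) : ℝ))) *
        (((t * p : ℕ) : ℝ) / ((t * q : ℕ) : ℝ)) ≤ i ∧
      Big n i (2 ^ a * (((t * q : ℕ) : ℝ) - ((t * p : ℕ) : ℝ)) / 2 - 1) := by
    intro t
    by_cases ht : 0 < t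
    · obtain ⟨a₀, h⟩ := hBl (t * p) (t * q) (Nat.mul_pos ht hp)
        (Nat.mul_lt_mul_of_pos_left hpq ht) (δ / 8) hε
      exact ⟨a₀, fun _ => h⟩
    · exact ⟨0, fun h => absurd h ht⟩
  choose a₀ ha₀ using hall
  obtain ⟨A, hA⟩ : ∃ A, A = (Finset.range (2 * T)).sup a₀ := ⟨_, rfl⟩
  obtain ⟨d, hd⟩ : ∃ d : ℝ, d = p * ((q : ℝ) - p) := ⟨_, rfl⟩
  have hd0 : 0 < d := by rw [hd]; positivity
  obtain ⟨n₁, hn₁⟩ := exists_nat_ge (((T * 2 ^ A : ℕ) : ℝ) ^ 2 * ((1 + δ / 8) * d))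
  obtain ⟨n₂, hn₂⟩ := exists_nat_ge ((4 / δ) ^ 2 * (p / ((q : ℝ) - p)))
  refine ⟨max (max n₁ n₂) 1, fun n i hn hi => ?_⟩
  have hn1 : n₁ ≤ n := (le_max_left _ _).trans ((le_max_left _ _).trans hn)
  have hn2 : n₂ ≤ n := (le_max_right _ _).trans ((le_max_left _ _).trans hn)
  have hn0 : 0 < n := lt_of_lt_of_le one_pos ((le_max_right _ _).trans hn)
  have hN : (0 : ℝ) < n := by exact_mod_cast hn0
  have hn1' : (n₁ : ℝ) ≤ n := by exact_mod_cast hn1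
  have hn2' : (n₂ : ℝ) ≤ n := by exact_mod_cast hn2
  obtain ⟨s, hs⟩ : ∃ s : ℝ, s = √(n / ((1 + δ / 8) * d)) := ⟨_, rfl⟩
  have hs0 : 0 ≤ s := by rw [hs]; positivity
  have hs2 : s ^ 2 * ((1 + δ / 8) * d) = n := by
    rw [hs, Real.sq_sqrt (by positivity)]; field_simp
  have hsA : ((T * 2 ^ A : ℕ) : ℝ) ≤ s := by
    rw [hs]
    apply Real.le_sqrt_of_sq_le
    rw [le_div_iff₀ (by positivity)]
    linarith
  obtain ⟨a, t, hAa, hTt, htT, hM1, hM2⟩ := pick hT0 (Nat.le_floor hsA)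
  have ht0 : 0 < t := lt_of_lt_of_le hT0 hTt
  have htr : (0 : ℝ) < t := by exact_mod_cast ht0
  -- comparison of `2^a t` with `s`
  have c1 : (2 : ℝ) ^ a * t ≤ s := by
    have h1 : ((2 ^ a * t : ℕ) : ℝ) ≤ s := (Nat.cast_le.mpr hM1).trans (Nat.floor_le hs0)
    push_cast at h1
    exact h1
  have c2 : s ≤ (2 : ℝ) ^ a * (t + 1) := by
    have h1 : s < (⌊s⌋₊ : ℝ) + 1 := Nat.lt_floor_add_one s
    have h2 : ((⌊s⌋₊ + 1 : ℕ) : ℝ) ≤ ((2 ^ a * (t + 1) : ℕ) : ℝ) := by exact_mod_cast hM2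
    push_cast at h2
    linarith
  have c3 : (1 - δ / 8) * s ≤ (2 : ℝ) ^ a * t := by
    -- `1/(t+1) ≤ δ/8`
    have h1 : (8 : ℝ) ≤ δ * (t + 1) := by
      have : (T : ℝ) ≤ t := by exact_mod_cast hTt
      nlinarith
    have h2 : (1 - δ / 8) * (t + 1) ≤ t := by linarith
    have h3 : (1 - δ / 8) * s ≤ (1 - δ / 8) * ((2 : ℝ) ^ a * (t + 1)) :=
      mul_le_mul_of_nonneg_left c2 (by linarith)
    have h4 : (2 : ℝ) ^ a * ((1 - δ / 8) * (t + 1)) ≤ 2 ^ a * t :=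
      mul_le_mul_of_nonneg_left h2 (by positivity)
    linarith
  obtain ⟨w, hw⟩ : ∃ w : ℝ, w = (2 : ℝ) ^ a * t := ⟨_, rfl⟩
  rw [← hw] at c1 c3
  have hw0 : 0 ≤ w := by rw [hw]; positivity
  have h4a : (4 : ℝ) ^ a = 2 ^ a * 2 ^ a := by
    rw [← mul_pow]; norm_num
  obtain ⟨n', i', hn', hi', hBig⟩ := ha₀ t ht0 a
    ((by rw [hA]; exact Finset.le_sup (f := a₀) (Finset.mem_range.mpr htT) : a₀ t ≤ A).trans hAa)
  refine hM n' n i' i _ _ ?_ ?_ ?_ hBig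
  · -- `n' ≤ n`
    have e1 : (1 + δ / 8) * 4 ^ a * (((t * p : ℕ) : ℝ) * (((t * q : ℕ) : ℝ) - ((t * p : ℕ) : ℝ))) =
        w ^ 2 * ((1 + δ / 8) * d) := by
      rw [h4a, hw, hd]; push_cast; ring
    rw [e1] at hn'
    have : w ^ 2 * ((1 + δ / 8) * d) ≤ s ^ 2 * ((1 + δ / 8) * d) :=
      mul_le_mul_of_nonneg_right (pow_le_pow_left₀ hw0 c1 2) (by positivity)
    have h5 : (n' : ℝ) ≤ n := by linarith
    exact_mod_cast h5
  · -- `i ≤ i'`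
    have e1 : (1 - δ / 8) * 4 ^ a * (((t * p : ℕ) : ℝ) * (((t * q : ℕ) : ℝ) - ((t * p : ℕ) : ℝ))) *
        (((t * p : ℕ) : ℝ) / ((t * q : ℕ) : ℝ)) = (1 - δ / 8) * (w ^ 2 * d) * (p / q) := by
      rw [h4a, hw, hd]; push_cast; field_simp
    rw [e1] at hi'
    have h1 : ((1 - δ / 8) * s) ^ 2 ≤ w ^ 2 := pow_le_pow_left₀ (by nlinarith) c3 2
    have h2 : (1 - δ / 8) * n ≤ s ^ 2 * d := by
      have : (1 - δ / 8) * (1 + δ / 8) ≤ 1 := num2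
      calc (1 - δ / 8) * n = ((1 - δ / 8) * (1 + δ / 8)) * (s ^ 2 * d) := by rw [← hs2]; ring
        _ ≤ 1 * (s ^ 2 * d) := mul_le_mul_of_nonneg_right this (by positivity)
        _ = s ^ 2 * d := one_mul _
    have h3 : (1 - δ) ≤ (1 - δ / 8) ^ 4 := num1 hδ hδ1
    have h4 : (1 - δ) * n ≤ (1 - δ / 8) * (w ^ 2 * d) := by
      have b1 : (1 - δ / 8) ^ 2 * (s ^ 2 * d) ≤ w ^ 2 * d := by
        calc (1 - δ / 8) ^ 2 * (s ^ 2 * d) = ((1 - δ / 8) * s) ^ 2 * d := by ring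
          _ ≤ w ^ 2 * d := mul_le_mul_of_nonneg_right h1 hd0.le
      have b2 : (1 - δ / 8) ^ 2 * ((1 - δ / 8) * n) ≤ (1 - δ / 8) ^ 2 * (s ^ 2 * d) :=
        mul_le_mul_of_nonneg_left h2 (sq_nonneg _)
      calc (1 - δ) * (n : ℝ) ≤ (1 - δ / 8) ^ 4 * n := mul_le_mul_of_nonneg_right h3 hN.le
        _ = (1 - δ / 8) * ((1 - δ / 8) ^ 2 * ((1 - δ / 8) * n)) := by ring
        _ ≤ (1 - δ / 8) * (w ^ 2 * d) :=
            mul_le_mul_of_nonneg_left (b2.trans b1) (by linarith)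
    have h5 : (i : ℝ) ≤ i' := by
      calc (i : ℝ) ≤ (1 - δ) * (p / q) * n := hi
        _ = (1 - δ) * n * (p / q) := by ring
        _ ≤ (1 - δ / 8) * (w ^ 2 * d) * (p / q) := mul_le_mul_of_nonneg_right h4 (by positivity)
        _ ≤ i' := hi'
    exact_mod_cast h5
  · -- the eigenvalue
    obtain ⟨Z, hZ⟩ : ∃ Z : ℝ, Z = √(n * (((q : ℝ) - p) / p)) := ⟨_, rfl⟩
    have hZ0 : 0 ≤ Z := by rw [hZ]; positivity
    have hZ2 : Z ^ 2 * p = n * ((q : ℝ) - p) := by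
      rw [hZ, Real.sq_sqrt (by positivity)]; field_simp
    rw [← hZ]
    have e1 : (2 : ℝ) ^ a * (((t * q : ℕ) : ℝ) - ((t * p : ℕ) : ℝ)) / 2 - 1 =
        w * ((q : ℝ) - p) / 2 - 1 := by
      rw [hw]; push_cast; ring
    rw [e1]
    have h1 : Z ≤ s * ((q : ℝ) - p) * (1 + δ / 8) := by
      apply le_of_sq_le_sq _ (by positivity)
      have h2 : (s * ((q : ℝ) - p) * (1 + δ / 8)) ^ 2 * p = Z ^ 2 * p * (1 + δ / 8) := by
        rw [hZ2, ← hs2, hd]; ring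
      have h3 : Z ^ 2 * p ≤ Z ^ 2 * p * (1 + δ / 8) := by
        have : 0 ≤ Z ^ 2 * p := by positivity
        nlinarith
      rw [← h2] at h3
      exact le_of_mul_le_mul_right h3 hpr
    have h2 : (1 - δ / 8) * Z ≤ s * ((q : ℝ) - p) := by
      have h3 : (1 - δ / 8) * Z ≤ (1 - δ / 8) * (s * ((q : ℝ) - p) * (1 + δ / 8)) :=
        mul_le_mul_of_nonneg_left h1 (by linarith)
      have h4 : 0 ≤ s * ((q : ℝ) - p) := by positivity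
      have h5 : (1 - δ / 8) * (1 + δ / 8) ≤ 1 := num2
      calc (1 - δ / 8) * Z ≤ (1 - δ / 8) * (s * ((q : ℝ) - p) * (1 + δ / 8)) := h3
        _ = ((1 - δ / 8) * (1 + δ / 8)) * (s * ((q : ℝ) - p)) := by ring
        _ ≤ 1 * (s * ((q : ℝ) - p)) := mul_le_mul_of_nonneg_right h5 h4
        _ = _ := one_mul _
    have h3 : (1 - δ / 8) ^ 2 * Z ≤ w * ((q : ℝ) - p) := by
      have h4 : (1 - δ / 8) * ((1 - δ / 8) * Z) ≤ (1 - δ / 8) * (s * ((q : ℝ) - p)) :=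
        mul_le_mul_of_nonneg_left h2 (by linarith)
      have h5 : (1 - δ / 8) * s * ((q : ℝ) - p) ≤ w * ((q : ℝ) - p) :=
        mul_le_mul_of_nonneg_right c3 hqp.le
      calc (1 - δ / 8) ^ 2 * Z = (1 - δ / 8) * ((1 - δ / 8) * Z) := by ring
        _ ≤ (1 - δ / 8) * (s * ((q : ℝ) - p)) := h4
        _ = (1 - δ / 8) * s * ((q : ℝ) - p) := by ring
        _ ≤ _ := h5
    have h4 : (1 - δ / 4) * Z ≤ (1 - δ / 8) ^ 2 * Z := by
      apply mul_le_mul_of_nonneg_right _ hZ0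
      nlinarith [sq_nonneg δ]
    have h5 : 4 / δ ≤ Z := by
      rw [hZ]
      apply Real.le_sqrt_of_sq_le
      have h6 : (4 / δ) ^ 2 * (p / ((q : ℝ) - p)) ≤ n := hn₂.trans hn2'
      have h7 : (4 / δ) ^ 2 * (p / ((q : ℝ) - p)) * (((q : ℝ) - p) / p) ≤
          n * (((q : ℝ) - p) / p) := mul_le_mul_of_nonneg_right h6 (by positivity)
      have h8 : (4 / δ) ^ 2 * (p / ((q : ℝ) - p)) * (((q : ℝ) - p) / p) = (4 / δ) ^ 2 := by
        field_simp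
      linarith
    have h6 : 4 ≤ δ * Z := by
      rw [div_le_iff₀ hδ] at h5; linarith
    have h7 : (1 - δ / 4) * Z ≤ w * ((q : ℝ) - p) := h4.trans h3
    linarith

/-- **RATIO** -/
theorem ratio (hBl : BlockStatement) (hM : MonoStatement) : RatioStatement := by
  intro p q hp hpq δ hδ
  have hqr : (0 : ℝ) < q := by exact_mod_cast hp.trans hpq
  have hpr : (0 : ℝ) < p := by exact_mod_cast hp
  obtain ⟨n₀, h⟩ := ratio_small hBl hM p q hp hpq (δ := min δ (1 / 2)) (by positivity)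
    (min_le_right _ _)
  refine ⟨n₀, fun n i hn hi => ?_⟩
  have hm : 1 - δ ≤ 1 - min δ (1 / 2) := by
    have := min_le_left δ (1 / 2); linarith
  refine hM n n i i _ _ le_rfl le_rfl ?_ (h n i hn (hi.trans ?_))
  · have := mul_le_mul_of_nonneg_right hm (Real.sqrt_nonneg ((n : ℝ) * (((q : ℝ) - p) / p)))
    linarith
  · rw [mul_assoc, mul_assoc]
    exact mul_le_mul_of_nonneg_right hm (by positivity)

end Pool.Agent.Lib.MP_b9b22b_co.Lin.H72
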