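import Pool.Agent.Lib.MP_b9b22b_co.Lin.Base

/-!
# UNI: the uniform lower bound, from the lower bound for single ratios
-/

set_option autoImplicit false

namespace Pool.Agent.Lib.MP_b9b22b_co.Lin.H72

open Finset Pool.Agent.Lib.MP_b9b22b_co.Lin

lemma mul_sqrt_le {a b X Y : ℝ} (ha : 0 ≤ a) (hb : 0 ≤ b) (h : a ^ 2 * X ≤ b ^ 2 * Y) :
    a * √X ≤ b * √Y := by
  have h1 : a * √X = √(a ^ 2 * X) := by
    rw [Real.sqrt_mul (sq_nonneg a), Real.sqrt_sq ha]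
  have h2 : b * √Y = √(b ^ 2 * Y) := by
    rw [Real.sqrt_mul (sq_nonneg b), Real.sqrt_sq hb]
  rw [h1, h2]
  exact Real.sqrt_le_sqrt h

/-- the numerical inequality behind the grid -/
lemma grid_ineq {ε α x : ℝ} (hε : 0 < ε) (hε1 : ε < 1) (hα : 0 < α) (hα1 : α ≤ 1 - ε)
    (hx0 : 0 < x) (hx : x ≤ α * (1 + ε ^ 2 / 4)) :
    x < 1 ∧ (1 - ε) ^ 2 * ((1 - α) * x) ≤ (1 - ε ^ 2 / 16) ^ 2 * ((1 - x) * α) := by
  have hx1 : x ≤ α + α * (ε ^ 2 / 4) := by linarith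
  have h1 : α * (ε ^ 2 / 4) ≤ ε / 4 * (1 - α) := by
    have h2 : α * (ε ^ 2 / 4) ≤ ε ^ 2 / 4 := by
      have : α ≤ 1 := by linarith
      nlinarith [sq_nonneg ε]
    have h3 : ε ^ 2 / 4 ≤ ε / 4 * (1 - α) := by nlinarith
    linarith
  have h4 : (1 - α) * (1 - ε / 4) ≤ 1 - x := by nlinarith
  have h5 : 0 < (1 - α) * (1 - ε / 4) := by
    apply mul_pos <;> linarith
  refine ⟨by linarith, ?_⟩
  -- `(1 - ε)^2 (1 - α) x ≤ (1 - ε)^2 (1 - α) α (1 + ε^2/4)`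
  have h6 : (1 - α) * x ≤ (1 - α) * (α * (1 + ε ^ 2 / 4)) :=
    mul_le_mul_of_nonneg_left hx (by linarith)
  have h7 : (1 - ε) ^ 2 * (1 + ε ^ 2 / 4) ≤ (1 - ε ^ 2 / 16) ^ 2 * (1 - ε / 4) := by
    have e1 : 0 ≤ ε := hε.le
    have e2 : 0 ≤ 1 - ε := by linarith
    have e3 : (1 - ε ^ 2 / 16) ^ 2 ≥ 1 - ε / 8 := by
      have : ε ^ 2 ≤ ε := by nlinarith
      nlinarith [sq_nonneg (ε ^ 2)]
    have e4 : (1 - ε / 8) * (1 - ε / 4) ≤ (1 - ε ^ 2 / 16) ^ 2 * (1 - ε / 4) :=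
      mul_le_mul_of_nonneg_right e3 (by linarith)
    have e5 : (1 - ε) ^ 2 * (1 + ε ^ 2 / 4) ≤ (1 - ε) * (1 + ε ^ 2 / 4) := by
      apply mul_le_mul_of_nonneg_right _ (by positivity)
      nlinarith
    have e6 : (1 - ε) * (1 + ε ^ 2 / 4) ≤ (1 - ε / 8) * (1 - ε / 4) := by
      have : ε ^ 2 ≤ ε := by nlinarith
      nlinarith [mul_nonneg e1 e2, mul_nonneg (mul_nonneg e1 e1) e2, pow_nonneg e1 3]
    linarith
  calc (1 - ε) ^ 2 * ((1 - α) * x) ≤ (1 - ε) ^ 2 * ((1 - α) * (α * (1 + ε ^ 2 / 4))) :=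
        mul_le_mul_of_nonneg_left h6 (sq_nonneg _)
    _ = ((1 - ε) ^ 2 * (1 + ε ^ 2 / 4)) * ((1 - α) * α) := by ring
    _ ≤ ((1 - ε ^ 2 / 16) ^ 2 * (1 - ε / 4)) * ((1 - α) * α) :=
        mul_le_mul_of_nonneg_right h7 (mul_nonneg (by linarith) hα.le)
    _ = (1 - ε ^ 2 / 16) ^ 2 * (((1 - α) * (1 - ε / 4)) * α) := by ring
    _ ≤ (1 - ε ^ 2 / 16) ^ 2 * ((1 - x) * α) :=
        mul_le_mul_of_nonneg_left (mul_le_mul_of_nonneg_right h4 hα.le) (sq_nonneg _)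

/-- ratios bounded away from `0` -/
lemma mid (hR : RatioStatement) (hM : MonoStatement) {ε : ℝ} (hε : 0 < ε) (hε1 : ε < 1) (K : ℕ)
    (hK : 0 < K) : ∃ N₀ : ℕ, ∀ n i : ℕ, N₀ ≤ n → 0 < i → n ≤ K ^ 2 * i → (i : ℝ) ≤ (1 - ε) * n →
      Big n i ((1 - ε) * √(n * (n - i) / i) / 2) := by
  classical
  obtain ⟨Q, hQ⟩ := exists_nat_gt ((8 : ℝ) * K ^ 2 / ε ^ 2)
  have hKr : (0 : ℝ) < K := by exact_mod_cast hK
  have hQ0 : (0 : ℝ) < Q := lt_of_le_of_lt (by positivity) hQ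
  have hδ : (0 : ℝ) < ε ^ 2 / 16 := by positivity
  have hε2 : ε ^ 2 < 1 := by nlinarith
  have hδ1 : ε ^ 2 / 16 < 1 / 16 := by linarith
  have hall : ∀ j : ℕ, ∃ n₀ : ℕ, 0 < j → j < Q → ∀ n i : ℕ, n₀ ≤ n →
      (i : ℝ) ≤ (1 - ε ^ 2 / 16) * (j / Q) * n →
        Big n i ((1 - ε ^ 2 / 16) * √(n * (((Q : ℝ) - j) / j)) / 2) := by
    intro j
    by_cases h : 0 < j ∧ j < Q
    · obtain ⟨n₀, h0⟩ := hR j Q h.1 h.2 (ε ^ 2 / 16) hδ
      exact ⟨n₀, fun _ _ => h0⟩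
    · exact ⟨0, fun h1 h2 => absurd ⟨h1, h2⟩ h⟩
  choose n₀ hn₀ using hall
  refine ⟨(Finset.range Q).sup n₀, fun n i hn hi hK2 hin => ?_⟩
  have hI : (0 : ℝ) < i := by exact_mod_cast hi
  have hN : (0 : ℝ) < n := by
    rcases Nat.eq_zero_or_pos n with h | h
    · subst h; simp at hin; linarith
    · exact_mod_cast h
  obtain ⟨α, hα⟩ : ∃ α : ℝ, α = i / n := ⟨_, rfl⟩
  have hα0 : 0 < α := by rw [hα]; positivity
  have hα1 : α ≤ 1 - ε := by rw [hα, div_le_iff₀ hN]; exact hin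
  have hαn : α * n = i := by rw [hα]; field_simp
  have hαK : 1 ≤ K ^ 2 * α := by
    have : (n : ℝ) ≤ K ^ 2 * i := by exact_mod_cast hK2
    rw [hα, ← mul_div_assoc, le_div_iff₀ hN]
    linarith
  -- the grid point
  obtain ⟨j, hj⟩ : ∃ j : ℕ, j = ⌈α * Q / (1 - ε ^ 2 / 16)⌉₊ := ⟨_, rfl⟩
  have hd : 0 < 1 - ε ^ 2 / 16 := by linarith
  have hj1 : α * Q / (1 - ε ^ 2 / 16) ≤ j := by rw [hj]; exact Nat.le_ceil _
  have hj2 : (j : ℝ) < α * Q / (1 - ε ^ 2 / 16) + 1 := by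
    rw [hj]; exact Nat.ceil_lt_add_one (by positivity)
  have hj0 : 0 < j := by
    have : (0 : ℝ) < j := lt_of_lt_of_le (by positivity) hj1
    exact_mod_cast this
  have hjr : (0 : ℝ) < j := by exact_mod_cast hj0
  obtain ⟨x, hx⟩ : ∃ x : ℝ, x = j / Q := ⟨_, rfl⟩
  have hx0 : 0 < x := by rw [hx]; positivity
  have hx1 : α ≤ (1 - ε ^ 2 / 16) * x := by
    rw [div_le_iff₀ hd] at hj1
    rw [hx, ← mul_div_assoc, le_div_iff₀ hQ0]
    linarith
  have hx2 : x ≤ α * (1 + ε ^ 2 / 4) := by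
    rw [hx, div_le_iff₀ hQ0]
    have h1 : α * Q / (1 - ε ^ 2 / 16) ≤ α * Q * (1 + ε ^ 2 / 8) := by
      rw [div_le_iff₀ hd]
      have : 1 ≤ (1 + ε ^ 2 / 8) * (1 - ε ^ 2 / 16) := by nlinarith [sq_nonneg ε]
      calc α * Q = α * Q * 1 := by ring
        _ ≤ α * Q * ((1 + ε ^ 2 / 8) * (1 - ε ^ 2 / 16)) :=
            mul_le_mul_of_nonneg_left this (by positivity)
        _ = _ := by ring
    have h2 : 1 ≤ α * Q * (ε ^ 2 / 8) := by
      have h3 : 8 * (K : ℝ) ^ 2 < Q * ε ^ 2 := by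
        rw [div_lt_iff₀ (by positivity)] at hQ
        exact hQ
      have h4 : α * (8 * (K : ℝ) ^ 2) ≤ α * (Q * ε ^ 2) := mul_le_mul_of_nonneg_left h3.le hα0.le
      nlinarith
    linarith
  obtain ⟨hxlt, hineq⟩ := grid_ineq hε hε1 hα0 hα1 hx0 hx2
  have hjQ : j < Q := by
    rw [hx, div_lt_one hQ0] at hxlt
    exact_mod_cast hxlt
  have hb := hn₀ j hj0 hjQ n i
    ((Finset.le_sup (f := n₀) (Finset.mem_range.mpr hjQ)).trans hn) (by
      rw [← hx]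
      calc (i : ℝ) = α * n := hαn.symm
        _ ≤ (1 - ε ^ 2 / 16) * x * n := mul_le_mul_of_nonneg_right hx1 hN.le)
  refine hM n n i i _ _ le_rfl le_rfl ?_ hb
  have key : (1 - ε) ^ 2 * ((n : ℝ) * (n - i) / i) ≤
      (1 - ε ^ 2 / 16) ^ 2 * (n * (((Q : ℝ) - j) / j)) := by
    have e1 : (n : ℝ) * (n - i) / i = n * ((1 - α) / α) := by
      rw [← hαn]; field_simp
    have e2 : ((Q : ℝ) - j) / j = (1 - x) / x := by
      rw [hx]; field_simp
    rw [e1, e2]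
    have e3 : (1 - ε) ^ 2 * ((1 - α) / α) ≤ (1 - ε ^ 2 / 16) ^ 2 * ((1 - x) / x) := by
      rw [← mul_div_assoc, ← mul_div_assoc, div_le_div_iff₀ hα0 hx0]
      linarith
    calc (1 - ε) ^ 2 * ((n : ℝ) * ((1 - α) / α)) = n * ((1 - ε) ^ 2 * ((1 - α) / α)) := by ring
      _ ≤ n * ((1 - ε ^ 2 / 16) ^ 2 * ((1 - x) / x)) := mul_le_mul_of_nonneg_left e3 hN.le
      _ = _ := by ring
  have := mul_sqrt_le (by linarith) hd.le key
  linarith

/-- **UNI** -/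
theorem uni (hR : RatioStatement) (hM : MonoStatement) (hB : BlowStatement) : UniStatement := by
  intro ε hε
  by_cases hε1 : ε < 1
  swap
  · refine ⟨1, fun n i hi hin => ?_⟩
    exfalso
    have h1 : (1 : ℝ) ≤ i := by exact_mod_cast hi
    have h2 : (1 - ε) * (n : ℝ) ≤ 0 :=
      mul_nonpos_of_nonpos_of_nonneg (by linarith) (Nat.cast_nonneg n)
    linarith
  obtain ⟨K, hK⟩ := exists_nat_ge (4 / ε)
  have hK4 : (4 : ℝ) ≤ K := by
    have : 4 ≤ 4 / ε := by rw [le_div_iff₀ hε]; linarith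
    linarith
  have hKpos : 0 < K := by
    have : (0 : ℝ) < K := by linarith
    exact_mod_cast this
  have hKε : 1 / (K : ℝ) ≤ ε / 4 := by
    rw [div_le_iff₀ hε] at hK
    rw [div_le_iff₀ (by linarith)]
    linarith
  obtain ⟨N₀, hN₀⟩ := mid hR hM (ε := ε / 4) (by linarith) (by linarith) K hKpos
  refine ⟨max N₀ 1, fun n i hC hin => ?_⟩
  have hi0 : 0 < i := lt_of_lt_of_le one_pos ((le_max_right _ _).trans hC)
  have hiN : N₀ ≤ i := (le_max_left _ _).trans hC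
  have hI : (0 : ℝ) < i := by exact_mod_cast hi0
  have hN : (0 : ℝ) < n := by
    rcases Nat.eq_zero_or_pos n with h | h
    · subst h; simp at hin; linarith
    · exact_mod_cast h
  have hin' : (i : ℝ) ≤ n := by nlinarith
  have hin'' : i ≤ n := by exact_mod_cast hin'
  by_cases hcase : n ≤ K ^ 2 * i
  · refine hM n n i i _ _ le_rfl le_rfl ?_ (hN₀ n i (hiN.trans hin'') hi0 hcase (by nlinarith))
    have := Real.sqrt_nonneg ((n : ℝ) * (n - i) / i)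
    nlinarith
  · push Not at hcase
    have hb := hN₀ (K * i) i (hiN.trans (Nat.le_mul_of_pos_left i hKpos)) hi0 (by
      rw [pow_two, mul_assoc]
      exact Nat.le_mul_of_pos_left _ hKpos) (by
      push_cast
      have : (1 : ℝ) ≤ (1 - ε / 4) * K := by nlinarith
      nlinarith)
    obtain ⟨t, ht⟩ : ∃ t, t = n / (K * i) := ⟨_, rfl⟩
    have hKi : 0 < K * i := Nat.mul_pos hKpos hi0
    have ht1 : t * (K * i) ≤ n := by rw [ht]; exact Nat.div_mul_le_self _ _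
    have ht2 : n < (t + 1) * (K * i) := by
      rw [ht, mul_comm]; exact Nat.lt_mul_div_succ n hKi
    have htK : K ≤ t := by
      rw [ht, Nat.le_div_iff_mul_le hKi]
      calc K * (K * i) = K ^ 2 * i := by ring
        _ ≤ n := hcase.le
    have htpos : 0 < t := lt_of_lt_of_le hKpos htK
    refine hM (t * (K * i)) n i i _ _ ht1 le_rfl ?_ (hB (K * i) i t _ htpos hb)
    have hKr : (0 : ℝ) < K := by linarith
    have ht2' : (n : ℝ) < (t + 1) * (K * i) := by exact_mod_cast ht2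
    have hcase' : (K : ℝ) ^ 2 * i < n := by exact_mod_cast hcase
    -- `t ≥ (n / (K i)) (1 - 1/K)`
    have ht3 : (n : ℝ) * (1 - 1 / K) ≤ t * (K * i) := by
      have h1 : (K : ℝ) * i ≤ n * (1 / K) := by
        rw [mul_one_div, le_div_iff₀ hKr]
        nlinarith
      nlinarith
    have e1 : ((K * i : ℕ) : ℝ) * (((K * i : ℕ) : ℝ) - i) / i = K * (K - 1) * i := by
      push_cast; field_simp
    rw [e1]
    have h34 : (1 - ε) ≤ (1 - ε / 4) * (1 - 1 / K) * (1 - 1 / K) := by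
      have a1 : 1 - ε / 4 ≤ 1 - 1 / (K : ℝ) := by linarith
      have a2 : 0 < 1 - ε / 4 := by linarith
      have a3 : (1 - ε / 4) * (1 - ε / 4) ≤ (1 - 1 / (K : ℝ)) * (1 - 1 / K) := by nlinarith
      have a4 : 1 - ε ≤ (1 - ε / 4) * ((1 - ε / 4) * (1 - ε / 4)) := by nlinarith [sq_nonneg ε]
      calc 1 - ε ≤ (1 - ε / 4) * ((1 - ε / 4) * (1 - ε / 4)) := a4
        _ ≤ (1 - ε / 4) * ((1 - 1 / (K : ℝ)) * (1 - 1 / K)) := mul_le_mul_of_nonneg_left a3 a2.le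
        _ = _ := by ring
    have hs : (1 - ε) * √((n : ℝ) * (n - i) / i) ≤
        (t * (1 - ε / 4)) * √(K * (K - 1) * i) := by
      have hk1 : 0 ≤ 1 - 1 / (K : ℝ) := by linarith
      have htr : (0 : ℝ) < t := by exact_mod_cast htpos
      apply mul_sqrt_le (by linarith) (mul_nonneg htr.le (by linarith))
      -- left side `≤ (1-ε)² n² / i`
      have l1 : (1 - ε) ^ 2 * ((n : ℝ) * (n - i) / i) ≤ (1 - ε) ^ 2 * (n * n / i) := by
        apply mul_le_mul_of_nonneg_left _ (sq_nonneg _)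
        apply div_le_div_of_nonneg_right _ hI.le
        nlinarith
      -- right side
      have r1 : (t * (1 - ε / 4)) ^ 2 * (K * (K - 1) * i) =
          (1 - ε / 4) ^ 2 * (t * (K * i)) ^ 2 * (1 - 1 / K) / i := by
        field_simp
      have r2 : ((n : ℝ) * (1 - 1 / K)) ^ 2 ≤ (t * (K * i)) ^ 2 :=
        pow_le_pow_left₀ (mul_nonneg hN.le hk1) ht3 2
      rw [r1]
      refine l1.trans ?_
      rw [← mul_div_assoc]
      apply div_le_div_of_nonneg_right _ hI.le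
      have r3 : (1 - 1 / (K : ℝ)) ^ 2 ≤ 1 - 1 / K := by
        have : 0 ≤ 1 / (K : ℝ) := by positivity
        nlinarith
      have r4 : (1 - ε) ^ 2 ≤ ((1 - ε / 4) * (1 - 1 / K) * (1 - 1 / K)) ^ 2 :=
        pow_le_pow_left₀ (by linarith) h34 2
      calc (1 - ε) ^ 2 * ((n : ℝ) * n)
          ≤ ((1 - ε / 4) * (1 - 1 / K) * (1 - 1 / K)) ^ 2 * (n * n) :=
            mul_le_mul_of_nonneg_right r4 (by positivity)
        _ = (1 - ε / 4) ^ 2 * ((n : ℝ) * (1 - 1 / K)) ^ 2 * (1 - 1 / K) ^ 2 := by ring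
        _ ≤ (1 - ε / 4) ^ 2 * (t * (K * i)) ^ 2 * (1 - 1 / K) := by
            apply mul_le_mul _ r3 (sq_nonneg _) (by positivity)
            exact mul_le_mul_of_nonneg_left r2 (sq_nonneg _)
    linarith

end Pool.Agent.Lib.MP_b9b22b_co.Lin.H72
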